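import Pool.Agent.K.MP_cb43af_nt.C1

open Finset Filter Pool.Agent.FMZ

namespace Pool.Agent.Results.MP_cb43af_nt.Independent

theorem result (b c r : ℚ) (h : b ≠ 0 ∨ c ≠ 0) :
    ∀ᶠ x : ℕ in atTop, (Nat.primeCounting x : ℝ) / 2500 ≤
      (((range (x + 1)).filter fun p => p.Prime ∧
        ¬ padicNorm p (b * zeta [2, 1] p + c * zeta [4, 1] p - r) ≤ 1 / p).card : ℕ) :=
  density5 b c r h

end Pool.Agent.Results.MP_cb43af_nt.Independent
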