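import Pool.Agent.P.MP_cb43af_nt.Rk.Sums

open PowerSeries Pool.Agent.Rkz

namespace Pool.Agent.Results.MP_cb43af_nt.RefinedImplies

theorem result (B : Type) [CommRing B] [Countable B] (ι : PowerSeries B →+* Ahat)
    (hι : Function.Injective ι) (hp : ι X = bp) (hR : R ≤ ι.range) (hC : ∀ f, InCl (ι f)) :
    List.TFAE [∀ x, InCl x → x ∈ ι.range,
      ∀ m : ℕ, ∃ n : ℕ, ∀ f, bp ^ n ∣ ι f → X ^ m ∣ f,
      ∀ f, pr 1 (ι f) = 0 → ∃ g, ι f = bp * ι g,
      ∃ ψ : B →+* A 1, Function.Injective ψ ∧ ψ.range = ZA ∧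
        ∀ f, ψ (constantCoeff f) = pr 1 (ι f)] :=
  tfae_hom B ι hι hp hR hC

/-- multiple zeta values modulo `ζ(2)` form a countable ring -/
theorem countable_Zbar : Countable Zbar := by
  have h : Countable Zreal :=
    countable_closure ((Set.countable_range _).union ((Set.to_countable _).image _))
  exact Ideal.Quotient.mk_surjective.countable

/-- the reading of the problem file: the closed algebra -/
theorem closed_reading (φ : Zhat ≃+* PowerSeries Zbar)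
    (hp : ∀ x : Zhat, (x : Ahat) = bp → φ x = X) :
    (∀ x ∈ Zhat, pr 1 x = 0 → ∃ y ∈ Zhat, x = bp * y) ∧
      ∃ ψ : ZA ≃+* Zbar, ∀ (k : List ℕ+) (x : Zhat) (a : ZA), (x : Ahat) = cls (zeta k) →
        (a : A 1) = clsA 1 (zeta k) → ψ a = constantCoeff (φ x) := by
  have := countable_Zbar
  have h := tfae Zhat (fun x hx n => ⟨x, hx, by simp⟩) (fun _ hx => hx) Zbar φ hp
  have h1 : ∀ x, InCl x → x ∈ Zhat := fun _ hx => hx
  obtain ⟨ψ, hψ⟩ := (h.out 0 3).1 h1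
  exact ⟨(h.out 0 2).1 h1, ψ, fun k x a hx ha => hψ x a (by rw [ha, hx]; rfl)⟩

/-- the convergent sums form one of the rings `Z` of the statement -/
theorem sums_between : ∃ Z : Subring Ahat, (∀ x, x ∈ Z ↔ IsSum x) ∧ R ≤ Z ∧ ∀ x ∈ Z, InCl x :=
  ⟨Zsum, mem_Zsum, R_le_Zsum, inCl_of_Zsum⟩

/-- the other reading: the convergent sums, with a continuous isomorphism -/
theorem sums_reading (Z : Subring Ahat) (hZ : ∀ x, x ∈ Z ↔ IsSum x) (φ : Z ≃+* PowerSeries Zbar)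
    (hp : ∀ x : Z, (x : Ahat) = bp → φ x = X)
    (hc : ∀ m : ℕ, ∃ n : ℕ, ∀ x : Z, bp ^ n ∣ (x : Ahat) → X ^ m ∣ φ x) :
    (∀ x ∈ Z, pr 1 x = 0 → ∃ y ∈ Z, x = bp * y) ∧
      ∃ ψ : ZA ≃+* Zbar, ∀ (k : List ℕ+) (x : Z) (a : ZA), (x : Ahat) = cls (zeta k) →
        (a : A 1) = clsA 1 (zeta k) → ψ a = constantCoeff (φ x) := by
  have := countable_Zbar
  have h := tfae Z (fun x hx => (hZ x).2 (isSum_of_mem (R_le_Zsum hx)))
    (fun x hx => inCl_of_Zsum x (mem_of_isSum ((hZ x).1 hx))) Zbar φ hp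
  obtain ⟨ψ, hψ⟩ := (h.out 1 3).1 hc
  exact ⟨(h.out 1 2).1 hc, ψ, fun k x a hx ha => hψ x a (by rw [ha, hx]; rfl)⟩

/-- without any conjecture: Q1 is the same question for the closure and for the convergent sums,
and it makes the two agree -/
theorem readings_agree :
    ((∀ x, InCl x → pr 1 x = 0 → ∃ y, InCl y ∧ x = bp * y) ↔
      ∀ x, IsSum x → pr 1 x = 0 → ∃ y, IsSum y ∧ x = bp * y) ∧
    ((∀ x, InCl x → pr 1 x = 0 → ∃ y, InCl y ∧ x = bp * y) → ∀ x, InCl x ↔ IsSum x) := by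
  refine ⟨⟨fun h x hx h0 => ?_, fun h => ?_⟩, fun h x =>
    ⟨fun hx => isSum_of_mem (sum_of_sat h x hx), fun hx => inCl_of_Zsum x (mem_of_isSum hx)⟩⟩
  · obtain ⟨y, hy, hxy⟩ := h x (inCl_of_Zsum x (mem_of_isSum hx)) h0
    exact ⟨y, isSum_of_mem (sum_of_sat h y hy), hxy⟩
  · refine sat_closure R_le_Zsum inCl_of_Zsum fun x hx h0 => ?_
    obtain ⟨y, hy, hxy⟩ := h x (isSum_of_mem hx) h0
    exact ⟨y, mem_of_isSum hy, hxy⟩

/-- without any conjecture: Q1 holds iff the closure modulo `𝒑` is countable and reduced -/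
theorem criterion (q : Zhat) (hq : (q : Ahat) = bp) :
    (∀ x ∈ Zhat, pr 1 x = 0 → ∃ y ∈ Zhat, x = bp * y) ↔
      Countable (Zhat ⧸ Ideal.span {q}) ∧ ∀ (x : Zhat) (n : ℕ), q ∣ x ^ n → q ∣ x := by
  rw [criterion_aux q hq, ← Ideal.isRadical_iff_quotient_reduced]
  refine and_congr_right fun _ => ⟨fun h x n hx => Ideal.mem_span_singleton.1
    (h ⟨n, Ideal.mem_span_singleton.2 hx⟩), fun h x ⟨n, hx⟩ => Ideal.mem_span_singleton.2
    (h x n (Ideal.mem_span_singleton.1 hx))⟩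

/-- the `𝒑`-adic topology is the inverse limit topology, and `π` is reduction modulo `𝒑` -/
theorem topology (n : ℕ) (x : Ahat) : bp ^ n ∣ x ↔ pr n x = 0 := pow_dvd_iff_val n x

/-- `md` is reduction modulo `N` -/
theorem md_is_reduction (q : ℚ) (N : ℕ) (h : q.den.Coprime N) : md q N * q.den = q.num := md_den h

/-- the denominators of the harmonic sums are prime to `p` -/
theorem zeta_integral (p : ℕ) (hp : p.Prime) (k : List ℕ+) : (zeta k p).den.Coprime p :=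
  cop_zeta hp k p le_rfl

/-- `𝒑` is not a unit -/
theorem bp_not_unit : ¬ bp ∣ 1 := by
  rw [← proj_eq_zero, ← map_one rho]
  change ¬ rhoA 1 1 = 0
  rw [rhoA_eq_zero]
  intro h
  have : Infinite {p : ℕ // p.Prime} := Nat.infinite_setOfPred_prime.to_subtype
  obtain ⟨p, hp⟩ := h.exists
  have h1 : ((p : ℕ) : ℤ) ∣ 1 := by simpa using hp
  have h2 : (p : ℕ) ∣ 1 := by exact_mod_cast h1
  exact p.2.ne_one (Nat.dvd_one.1 h2)

end Pool.Agent.Results.MP_cb43af_nt.RefinedImplies
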