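import Pool.Agent.K.MP_cb43af_nt.C1

open Finset Filter Pool.Agent.FMZ

namespace Pool.Agent.Results.MP_cb43af_nt.WeightSix

theorem result (c : ℕ → List ℕ+ →₀ ℚ) (hw : ∀ k ∈ (c 0).support, wt k = 6)
    (h : Cong 1 (trunc c 1) 0) :
    ∃ d : ℕ → List ℕ+ →₀ ℚ, ∀ N, Cong N (trunc c N) fun p => p * trunc d N p :=
  low_weight5 c (Or.inr hw) h

end Pool.Agent.Results.MP_cb43af_nt.WeightSix
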